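import Pool.Agent.H16.CQ.Main
import Pool.Agent.H85.GX.Fin

/-!
The counting principles modulo `q` and bounded-depth Frege systems with MOD_p connectives, `p` prime: exponentially hard if the
largest power of `p` dividing `q` divides `N` (and `q` does not), polynomially easy if it does not. Formulas, rules, refutations:
Pool/Agent/H65/AF/Defs.lean; the CNFs `CountCNF q N`: Pool/Agent/H16/CQ/Count.lean.
-/

set_option autoImplicit false

namespace H85.Park.CountingPrinciples3

open ACpFrege

/-- (1) Let `p` be a prime and `q ≥ 1`. For every finite set `S` of sound schematic rules (with MOD_p connectives) and every depth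
`d`, for all large `N` which are divisible by the largest power of `p` dividing `q` (no condition if `q` is prime to `p`) but not
by `q`: every refutation of `Count_q^N` in `S` with lines of depth at most `d` has size at least `2^(N^(1/(8000(d+2))))`.
(2) For every prime `p` there is a finite set of sound schematic rules in which every unsatisfiable CNF has a refutation of depth
at most 2 and in which, for every `q ≥ 1`, the principles `Count_q^N` with `N` not divisible by the largest power of `p` dividing
`q` have refutations of polynomial size with lines of depth at most 3.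
(3) `Count_q^N` is unsatisfiable if `q` does not divide `N` and has polynomial size. -/
theorem result :
    (∀ p q : ℕ, p.Prime → 1 ≤ q → ∀ S : List (Rule p), (∀ R ∈ S, R.Sound) → ∀ d : ℕ, ∃ N₀ : ℕ, ∀ N ≥ N₀,
      p ^ q.factorization p ∣ N → ¬ q ∣ N →
        ∀ π : List (Fm p), Refutes S d (CountCNF q N) π → (2 : ℝ) ^ ((N : ℝ) ^ ((1 : ℝ) / (8000 * (d + 2)))) ≤ psize π) ∧
    (∀ p : ℕ, p.Prime → ∃ S : List (Rule p), (∀ R ∈ S, R.Sound) ∧
      (∀ F : CNF, F.Unsat → ∃ π : List (Fm p), Refutes S 2 F π) ∧
      ∀ q : ℕ, 1 ≤ q → ∃ c : ℕ, ∀ N : ℕ, ¬ p ^ q.factorization p ∣ N →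
        ∃ π : List (Fm p), Refutes S 3 (CountCNF q N) π ∧ psize π ≤ (N + 2) ^ c) ∧
    ∀ q N : ℕ, (CountCNF q N).size ≤ (N + 2) ^ (2 * q + 3) ∧ (¬ q ∣ N → (CountCNF q N).Unsat) :=
  ⟨fun p q hp hq S hS d => count_main p q hp hq S hS d,
    fun p hp => ⟨PPh.SysXc p, PPh.sysXc_sound hp.two_le, fun _ hF => PPh.sysXc_complete hF,
      fun _ hq => PPh.sysXc_count hp hq⟩,
    fun q N => ⟨count_size q N, count_unsat⟩⟩

end H85.Park.CountingPrinciples3
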