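import Pool.Agent.H94.PP.Unsat
import Pool.Agent.H85.GX.PhpU
import Pool.Agent.H85.GX.Fin

/-!
The pigeonhole principle in bounded-depth Frege systems with MOD_p connectives (AC0[p]-Frege), for every prime p, every finite system
of sound schematic rules and every depth.  The definitions of the proof systems are in Pool/Agent/H65/AF/Defs.lean, those of the
formulas `php` and `ofphp` in Pool/Agent/H94/PP/Defs.lean.
-/

set_option autoImplicit false

namespace H85.Park.PigeonholePrinciple3

open ACpFrege PPh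

/-- (1) Let `p` be a prime, `c = log 2 / (200 log (2p + 4))` and `S` a finite set of sound schematic rules. For all large `K`, all
depths `d` with `(log K)^(d+1) ≤ K^c` (so for every fixed `d` and all large `K`) and all `n < m ≤ n + n / K` (for instance `K = n`,
`m = n + 1`), every refutation of the pigeonhole principle `php m n` in the Frege system `S` with MOD_p connectives all of whose
lines have depth at most `d` has size at least `2^(K^(c/(d+1)))`.
(2) The onto functional principle `ofphp m n`: for all large `l`, all depths `d` with `l^(d+1) ≤ 2^(l/20)` and all `n < m` such that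
`p^l` divides `m - n` and `(m - n) (2p+4)^(5l) ≤ n p^l` the size is at least `2^(2^(l/(20(d+1))))`.
(3) For every prime `p` there is a finite set `S` of sound schematic rules in which every unsatisfiable CNF has a refutation of depth
at most 2 and in which every `ofphp m n`, `n < m`, has a refutation of depth at most 3 and size at most `(m + 2)^(c p^v)`, where
`p^v` is the largest power of `p` dividing `m - n`.
(4) Both principles are unsatisfiable for `n < m`. -/
theorem result :
    (∀ p : ℕ, p.Prime → ∀ S : List (Rule p), (∀ R ∈ S, R.Sound) → ∃ K₀ : ℕ, ∀ K ≥ K₀, ∀ d : ℕ,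
      Real.log K ^ (d + 1) ≤ (K : ℝ) ^ (Real.log 2 / (200 * Real.log (2 * p + 4))) → ∀ m n : ℕ, n < m → K * (m - n) ≤ n →
        ∀ π : List (Fm p), Refutes S d (php m n) π →
          (2 : ℝ) ^ ((K : ℝ) ^ (Real.log 2 / (200 * Real.log (2 * p + 4)) / (d + 1))) ≤ psize π) ∧
    (∀ p : ℕ, p.Prime → ∀ S : List (Rule p), (∀ R ∈ S, R.Sound) → ∃ l₀ : ℕ, ∀ l ≥ l₀, ∀ d : ℕ,
      (l : ℝ) ^ (d + 1) ≤ 2 ^ ((l : ℝ) / 20) → ∀ m n : ℕ, n < m → p ^ l ∣ m - n → (m - n) * (2 * p + 4) ^ (5 * l) ≤ n * p ^ l →
        ∀ π : List (Fm p), Refutes S d (ofphp m n) π → (2 : ℝ) ^ ((2 : ℝ) ^ ((l : ℝ) / (20 * (d + 1)))) ≤ psize π) ∧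
    (∀ p : ℕ, p.Prime → ∃ S : List (Rule p), (∀ R ∈ S, R.Sound) ∧
      (∀ F : CNF, F.Unsat → ∃ π : List (Fm p), Refutes S 2 F π) ∧
      ∃ c : ℕ, ∀ m n : ℕ, n < m →
        ∃ π : List (Fm p), Refutes S 3 (ofphp m n) π ∧ psize π ≤ (m + 2) ^ (c * p ^ (m - n).factorization p)) ∧
    ∀ m n : ℕ, n < m → (php m n).Unsat ∧ (ofphp m n).Unsat :=
  ⟨mainPHPu, mainOFu,
    fun p hp => ⟨SysXc p, sysXc_sound hp.two_le, fun _ hF => sysXc_complete hF, sysXc_of hp⟩,
    fun _ _ h => ⟨php_unsat h, ofphp_unsat h⟩⟩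

end H85.Park.PigeonholePrinciple3
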